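import Pool.Agent.Y345.Types2
import Pool.Agent.H816R2.KM2N

/-!
Bordered difference families: group divisible designs with block size `k` of type
`(k-1)^q ((k-1) w)^1` over a group `A × ZMod q` with `|A| = k - 1`, with a check that is executed
by the kernel on the list of differences only.
-/

set_option autoImplicit false

namespace Pool.Agent.V7H3.SN

open Pool.Agent.Y345 Finset

section abstract

variable {A B W J : Type} [AddCommGroup A] [AddCommGroup B] [Fintype A] [Fintype B]
  [DecidableEq A] [DecidableEq B] [DecidableEq W]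

/-- the set of a base block -/
def sel (Q : W → Finset (A × B)) (P : J → Finset (A × B)) : W ⊕ J → Finset (A × B)
  | Sum.inl w => Q w
  | Sum.inr j => P j

/-- the developed block of a base block -/
def dev (Q : W → Finset (A × B)) (P : J → Finset (A × B)) (t : A × B) :
    W ⊕ J → Finset ((A × B) ⊕ (W × A))
  | Sum.inl w => insert (Sum.inr (w, t.1)) ((Q w).image fun p => Sum.inl (p + t))
  | Sum.inr j => (P j).image fun p => Sum.inl (p + t)

theorem inl_mem_dev (Q : W → Finset (A × B)) (P : J → Finset (A × B)) (t : A × B) (i : W ⊕ J)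
    (u : A × B) : (Sum.inl u : (A × B) ⊕ (W × A)) ∈ dev Q P t i ↔ u - t ∈ sel Q P i := by
  rcases i with w | j
  · unfold dev sel
    rw [Finset.mem_insert, Finset.mem_image]
    constructor
    · rintro (h | ⟨p, hp, h⟩)
      · exact absurd h (by simp)
      · rw [Sum.inl.injEq] at h
        rw [← h, add_sub_cancel_right]
        exact hp
    · intro h
      exact Or.inr ⟨u - t, h, by rw [sub_add_cancel]⟩
  · unfold dev sel
    rw [Finset.mem_image]
    constructor
    · rintro ⟨p, hp, h⟩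
      rw [Sum.inl.injEq] at h
      rw [← h, add_sub_cancel_right]
      exact hp
    · intro h
      exact ⟨u - t, h, by rw [sub_add_cancel]⟩

theorem inr_mem_dev (Q : W → Finset (A × B)) (P : J → Finset (A × B)) (t : A × B) (i : W ⊕ J)
    (w : W) (a : A) : (Sum.inr (w, a) : (A × B) ⊕ (W × A)) ∈ dev Q P t i ↔
      i = Sum.inl w ∧ a = t.1 := by
  rcases i with w' | j
  · unfold dev
    rw [Finset.mem_insert, Finset.mem_image]
    constructor
    · rintro (h | ⟨p, hp, h⟩)
      · rw [Sum.inr.injEq, Prod.mk.injEq] at h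
        rw [h.1, h.2]
        exact ⟨rfl, rfl⟩
      · exact absurd h (by simp)
    · rintro ⟨h1, h2⟩
      rw [Sum.inl.injEq] at h1
      rw [h1, h2]
      exact Or.inl rfl
  · unfold dev
    rw [Finset.mem_image]
    constructor
    · rintro ⟨p, hp, h⟩
      exact absurd h (by simp)
    · rintro ⟨h1, h2⟩
      exact absurd h1 (by simp)

/-- the group of a point -/
def kk : (A × B) ⊕ (W × A) → Option B
  | Sum.inl p => some p.2
  | Sum.inr _ => none

/-- a bordered difference family gives a group divisible design -/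
theorem de_bordered (k : ℕ) (hA : Fintype.card A + 1 = k)
    (Q : W → Finset (A × B)) (P : J → Finset (A × B))
    (hQ : ∀ w, (Q w).card = Fintype.card A) (hP : ∀ j, (P j).card = k)
    (hQ1 : ∀ w, ∀ p ∈ Q w, ∀ p' ∈ Q w, p.1 = p'.1 → p = p')
    (h0 : ∀ i, ∀ p ∈ sel Q P i, ∀ p' ∈ sel Q P i, p.2 = p'.2 → p = p')
    (hex : ∀ d : A × B, d.2 ≠ 0 → ∃ i, ∃ p ∈ sel Q P i, ∃ p' ∈ sel Q P i, p - p' = d)
    (hun : ∀ i, ∀ p ∈ sel Q P i, ∀ p' ∈ sel Q P i, ∀ j, ∀ r ∈ sel Q P j, ∀ r' ∈ sel Q P j,
      p ≠ p' → p - p' = r - r' → i = j ∧ p = r ∧ p' = r') :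
    De k (fun x y : (A × B) ⊕ (W × A) => kk x ≠ kk y) := by
  classical
  have hsur : ∀ w, ∀ a : A, ∃ p ∈ Q w, p.1 = a := by
    intro w
    have h1 : (Q w).image Prod.fst = Finset.univ := by
      apply Finset.eq_univ_of_card
      rw [Finset.card_image_of_injOn, hQ w]
      intro p hp p' hp' h
      exact hQ1 w p hp p' hp' h
    intro a
    have h2 : a ∈ (Q w).image Prod.fst := by
      rw [h1]
      exact Finset.mem_univ a
    obtain ⟨p, hp, h⟩ := Finset.mem_image.1 h2
    exact ⟨p, hp, h⟩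
  -- pairs of regular points
  have hreg : ∀ u u' : A × B, u.2 ≠ u'.2 → ∃ D ∈ {D | ∃ i t, D = dev Q P t i},
      (Sum.inl u : (A × B) ⊕ (W × A)) ∈ D ∧ Sum.inl u' ∈ D ∧
      ∀ D' ∈ {D | ∃ i t, D = dev Q P t i}, Sum.inl u ∈ D' → Sum.inl u' ∈ D' → D' = D := by
    intro u u' huu
    obtain ⟨i, p, hp, p', hp', h1⟩ := hex (u - u') (by
      rw [Prod.snd_sub]
      exact sub_ne_zero.2 huu)
    have hne : p ≠ p' := by
      rintro rfl
      rw [sub_self] at h1
      exact huu (by rw [sub_eq_zero.1 h1.symm])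
    refine ⟨dev Q P (u - p) i, ⟨i, u - p, rfl⟩, ?_, ?_, ?_⟩
    · rw [inl_mem_dev, sub_sub_cancel]
      exact hp
    · rw [inl_mem_dev]
      have : u' - (u - p) = p' := by
        have h2 : p' = p - (u - u') := by rw [← h1, sub_sub_cancel]
        rw [h2]
        abel
      rw [this]
      exact hp'
    · rintro D' ⟨j, t, rfl⟩ h2 h3
      rw [inl_mem_dev] at h2 h3
      obtain ⟨h4, h5, h6⟩ := hun i p hp p' hp' j _ h2 _ h3 hne (by rw [h1]; abel)
      subst h4
      have h7 : t = u - p := by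
        rw [h5, sub_sub_cancel]
      rw [h7]
  -- pairs of a regular point and a point of the hole
  have hmix : ∀ (u : A × B) (w : W) (a : A), ∃ D ∈ {D | ∃ i t, D = dev Q P t i},
      (Sum.inl u : (A × B) ⊕ (W × A)) ∈ D ∧ Sum.inr (w, a) ∈ D ∧
      ∀ D' ∈ {D | ∃ i t, D = dev Q P t i}, Sum.inl u ∈ D' → Sum.inr (w, a) ∈ D' → D' = D := by
    intro u w a
    obtain ⟨p, hp, h1⟩ := hsur w (u.1 - a)
    have h2 : (u - p).1 = a := by
      rw [Prod.fst_sub, h1, sub_sub_cancel]
    refine ⟨dev Q P (u - p) (Sum.inl w), ⟨_, _, rfl⟩, ?_, ?_, ?_⟩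
    · rw [inl_mem_dev, sub_sub_cancel]
      exact hp
    · rw [inr_mem_dev]
      exact ⟨rfl, h2.symm⟩
    · rintro D' ⟨j, t, rfl⟩ h3 h4
      rw [inl_mem_dev] at h3
      rw [inr_mem_dev] at h4
      obtain ⟨rfl, h5⟩ := h4
      have h6 : u - t = p := hQ1 w _ h3 p hp (by rw [h1, Prod.fst_sub, h5])
      have h7 : t = u - p := by
        rw [← h6, sub_sub_cancel]
      rw [h7]
  refine ⟨{D | ∃ i t, D = dev Q P t i}, ?_, ?_, ?_⟩
  · rintro D ⟨w | j, t, rfl⟩
    · unfold dev
      rw [Finset.card_insert_of_notMem, Finset.card_image_of_injective, hQ w, hA]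
      · intro x y hxy
        rw [Sum.inl.injEq] at hxy
        exact add_right_cancel hxy
      · intro h
        obtain ⟨p, _, h⟩ := Finset.mem_image.1 h
        exact absurd h (by simp)
    · unfold dev
      rw [Finset.card_image_of_injective, hP j]
      intro x y hxy
      rw [Sum.inl.injEq] at hxy
      exact add_right_cancel hxy
  · rintro D ⟨i, t, rfl⟩ (u | ⟨w, a⟩) hu (u' | ⟨w', a'⟩) hu' huu
    · intro h
      have h1 : u.2 = u'.2 := Option.some_injective _ h
      rw [inl_mem_dev] at hu hu'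
      have h2 := h0 i _ hu _ hu' (by rw [Prod.snd_sub, Prod.snd_sub, h1])
      exact huu (by rw [sub_left_injective h2])
    · intro h
      exact absurd h (by simp [kk])
    · intro h
      exact absurd h (by simp [kk])
    · rw [inr_mem_dev] at hu hu'
      exfalso
      apply huu
      have h1 := hu.1.symm.trans hu'.1
      rw [Sum.inl.injEq] at h1
      rw [h1, hu.2, hu'.2]
  · rintro (u | ⟨w, a⟩) (u' | ⟨w', a'⟩) huu hk
    · exact hreg u u' (fun h => hk (congrArg some h))
    · exact hmix u w' a'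
    · obtain ⟨D, hD, h1, h2, h3⟩ := hmix u' w a
      exact ⟨D, hD, h2, h1, fun D' hD' h4 h5 => h3 D' hD' h5 h4⟩
    · exact absurd rfl hk

end abstract

end Pool.Agent.V7H3.SN
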