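import Pool.Agent.V7H3.SN.Bord

/-!
Bordered difference families given by codes, with a check that is executed by the kernel.
-/

set_option autoImplicit false

namespace Pool.Agent.V7H3.SN

open Pool.Agent.Y345 Finset

/-- the code of the difference of two codes -/
def dcd (g q : ℕ) (sub : ℕ → ℕ → ℕ) (p p' : ℕ) : ℕ :=
  sub (p % g) (p' % g) + g * ((p / g + (q - p' / g)) % q)

def addD (f : ℕ → ℕ) : List ℕ → ℕ → ℕ
  | [], acc => acc
  | p :: l, acc => addD f l (acc ||| (1 <<< f p))

def addB (dc : ℕ → ℕ → ℕ) (B : List ℕ) : List ℕ → ℕ → ℕ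
  | [], acc => acc
  | p :: l, acc => addB dc B l (addD (dc p) B acc)

def addA (dc : ℕ → ℕ → ℕ) : List (List ℕ) → ℕ → ℕ
  | [], acc => acc
  | B :: l, acc => addA dc l (addB dc B B acc)

theorem addD_spec (f : ℕ → ℕ) : ∀ (l : List ℕ) (acc d : ℕ),
    Nat.testBit (addD f l acc) d = true → Nat.testBit acc d = true ∨ ∃ p ∈ l, f p = d := by
  intro l
  induction l with
  | nil => intro acc d h; exact Or.inl h
  | cons p l ih =>
    intro acc d h
    rw [addD] at h
    rcases ih _ _ h with h1 | ⟨x, hx, h1⟩
    · rw [Nat.testBit_or, Bool.or_eq_true, Nat.one_shiftLeft, Nat.testBit_two_pow] at h1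
      rcases h1 with h1 | h1
      · exact Or.inl h1
      · exact Or.inr ⟨p, List.mem_cons_self, of_decide_eq_true h1⟩
    · exact Or.inr ⟨x, List.mem_cons_of_mem _ hx, h1⟩

theorem addB_spec (dc : ℕ → ℕ → ℕ) (B : List ℕ) : ∀ (l : List ℕ) (acc d : ℕ),
    Nat.testBit (addB dc B l acc) d = true →
      Nat.testBit acc d = true ∨ ∃ p ∈ l, ∃ p' ∈ B, dc p p' = d := by
  intro l
  induction l with
  | nil => intro acc d h; exact Or.inl h
  | cons p l ih =>
    intro acc d h
    rw [addB] at h
    rcases ih _ _ h with h1 | ⟨x, hx, h1⟩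
    · rcases addD_spec _ _ _ _ h1 with h2 | h2
      · exact Or.inl h2
      · exact Or.inr ⟨p, List.mem_cons_self, h2⟩
    · exact Or.inr ⟨x, List.mem_cons_of_mem _ hx, h1⟩

theorem addA_spec (dc : ℕ → ℕ → ℕ) : ∀ (l : List (List ℕ)) (acc d : ℕ),
    Nat.testBit (addA dc l acc) d = true →
      Nat.testBit acc d = true ∨ ∃ B ∈ l, ∃ p ∈ B, ∃ p' ∈ B, dc p p' = d := by
  intro l
  induction l with
  | nil => intro acc d h; exact Or.inl h
  | cons B l ih =>
    intro acc d h
    rw [addA] at h
    rcases ih _ _ h with h1 | ⟨x, hx, h1⟩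
    · rcases addB_spec _ _ _ _ _ h1 with h2 | h2
      · exact Or.inl h2
      · exact Or.inr ⟨B, List.mem_cons_self, h2⟩
    · exact Or.inr ⟨x, List.mem_cons_of_mem _ hx, h1⟩

/-- the check of a bordered base block -/
def okQ (g v : ℕ) (B : List ℕ) : Bool :=
  (B.length == g) && decide (B.map fun x => x % g).Nodup && B.all fun x => decide (x < v)

/-- the check of a pure base block -/
def okP (k v : ℕ) (B : List ℕ) : Bool :=
  (B.length == k) && decide B.Nodup && B.all fun x => decide (x < v)

theorem gd_of_codes {A : Type} [AddCommGroup A] [Fintype A] [DecidableEq A] (k g q v : ℕ)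
    (hq : 0 < q) (hg : 0 < g) (hk : g + 1 = k) (hv : g * q = v) (en : ℕ → A)
    (hA : Fintype.card A = g)
    (hinj : ∀ a < g, ∀ b < g, en a = en b → a = b) (sub : ℕ → ℕ → ℕ)
    (hsub : ∀ a < g, ∀ b < g, sub a b < g ∧ en (sub a b) = en a - en b)
    (L1 L2 : List (List ℕ)) (h1 : (L1.all (okQ g v)) = true)
    (h2 : (L2.all (okP k v)) = true)
    (hc : L1.length * (g * g - g) + L2.length * (k * k - k) = g * (q - 1))
    (h3 : ((addA (dcd g q sub) (L1 ++ L2) 0) >>> g == 2 ^ (v - g) - 1) = true) :
    Gd k (fun i : Fin (q + 1) => if i = 0 then g * L1.length else g) := by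
  classical
  have : NeZero q := ⟨hq.ne'⟩
  have hk2 : 2 ≤ k := by omega
  rw [List.all_eq_true] at h1 h2
  have h1' : ∀ B ∈ L1, B.length = g ∧ (B.map fun x => x % g).Nodup ∧ ∀ x ∈ B, x < v := by
    intro B hB
    have h := h1 B hB
    unfold okQ at h
    simp only [Bool.and_eq_true, beq_iff_eq, decide_eq_true_eq, List.all_eq_true] at h
    exact ⟨h.1.1, h.1.2, h.2⟩
  have h2' : ∀ B ∈ L2, B.length = k ∧ B.Nodup ∧ ∀ x ∈ B, x < v := by
    intro B hB
    have h := h2 B hB
    unfold okP at h
    simp only [Bool.and_eq_true, beq_iff_eq, decide_eq_true_eq, List.all_eq_true] at h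
    exact ⟨h.1.1, h.1.2, h.2⟩
  -- decoding
  let e : ℕ → A × ZMod q := fun c => (en (c % g), ((c / g : ℕ) : ZMod q))
  have hdlt : ∀ c < v, c / g < q := fun c hcv => Nat.div_lt_of_lt_mul (by rw [hv]; exact hcv)
  have heinj : ∀ c < v, ∀ d < v, e c = e d → c = d := by
    intro c hcv d hdv h
    rw [Prod.mk.injEq] at h
    have e1 := hinj _ (Nat.mod_lt _ hg) _ (Nat.mod_lt _ hg) h.1
    have e2 := (ZMod.natCast_eq_natCast_iff _ _ q).1 h.2
    have e3 : c / g % q = d / g % q := e2
    rw [Nat.mod_eq_of_lt (hdlt c hcv), Nat.mod_eq_of_lt (hdlt d hdv)] at e3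
    rw [← Nat.div_add_mod c g, ← Nat.div_add_mod d g, e1, e3]
  have hdc : ∀ c < v, ∀ d < v, e (dcd g q sub c d) = e c - e d := by
    intro c hcv d hdv
    obtain ⟨e1, e2⟩ := hsub _ (Nat.mod_lt c hg) _ (Nat.mod_lt d hg)
    have e3 : dcd g q sub c d % g = sub (c % g) (d % g) := by
      unfold dcd
      rw [Nat.add_mul_mod_self_left, Nat.mod_eq_of_lt e1]
    have e4 : dcd g q sub c d / g = (c / g + (q - d / g)) % q := by
      unfold dcd
      rw [Nat.add_mul_div_left _ _ hg, Nat.div_eq_of_lt e1, Nat.zero_add]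
    simp only [e]
    rw [e3, e4, e2, ZMod.natCast_mod, Nat.cast_add, Nat.cast_sub (hdlt d hdv).le,
      ZMod.natCast_self]
    apply Prod.ext
    · rfl
    · simp only [Prod.snd_sub]
      ring
  have hesur : ∀ d : A × ZMod q, d.2 ≠ 0 → ∃ c, g ≤ c ∧ c < v ∧ e c = d := by
    rintro ⟨a, b⟩ hb
    have hbv : b.val ≠ 0 := fun h => hb ((ZMod.val_eq_zero b).1 h)
    have hbq := ZMod.val_lt b
    have hen : ∃ c < g, en c = a := by
      have h4 : (Finset.range g).image en = Finset.univ := by
        apply Finset.eq_univ_of_card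
        rw [Finset.card_image_of_injOn, Finset.card_range, hA]
        intro x hx y hy h
        exact hinj x (Finset.mem_range.1 hx) y (Finset.mem_range.1 hy) h
      have h5 : a ∈ (Finset.range g).image en := by
        rw [h4]
        exact Finset.mem_univ a
      obtain ⟨c, hc, h⟩ := Finset.mem_image.1 h5
      exact ⟨c, Finset.mem_range.1 hc, h⟩
    obtain ⟨c, hcg, rfl⟩ := hen
    refine ⟨c + g * b.val, ?_, ?_, ?_⟩
    · have : g * 1 ≤ g * b.val := Nat.mul_le_mul_left _ (by omega)
      omega
    · calc c + g * b.val < g + g * b.val := by omega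
        _ = g * (b.val + 1) := by ring
        _ ≤ g * q := Nat.mul_le_mul_left _ hbq
        _ = v := hv
    · simp only [e]
      rw [Nat.add_mul_mod_self_left, Nat.mod_eq_of_lt hcg, Nat.add_mul_div_left _ _ hg,
        Nat.div_eq_of_lt hcg, Nat.zero_add, ZMod.natCast_zmod_val]
  -- the base blocks
  let Q : Fin L1.length → Finset (A × ZMod q) := fun w => ((L1.get w).map e).toFinset
  let P : Fin L2.length → Finset (A × ZMod q) := fun j => ((L2.get j).map e).toFinset
  have hQm : ∀ w, L1.get w ∈ L1 := fun w => List.get_mem L1 w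
  have hPm : ∀ j, L2.get j ∈ L2 := fun j => List.get_mem L2 j
  have hQ1 : ∀ w, ∀ p ∈ Q w, ∀ p' ∈ Q w, p.1 = p'.1 → p = p' := by
    intro w p hp p' hp' h
    obtain ⟨c, hcm, rfl⟩ := List.mem_map.1 (List.mem_toFinset.1 hp)
    obtain ⟨d, hdm, rfl⟩ := List.mem_map.1 (List.mem_toFinset.1 hp')
    have e1 : c % g = d % g := hinj _ (Nat.mod_lt _ hg) _ (Nat.mod_lt _ hg) h
    have e2 := List.inj_on_of_nodup_map (h1' _ (hQm w)).2.1 hcm hdm e1
    rw [e2]
  have hQ : ∀ w, (Q w).card = Fintype.card A := by
    intro w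
    obtain ⟨e1, e2, e3⟩ := h1' _ (hQm w)
    simp only [Q]
    rw [List.toFinset_card_of_nodup, List.length_map, e1, hA]
    have e4 : (L1.get w).Nodup := List.Nodup.of_map _ e2
    exact List.Nodup.map_on (fun x hx y hy hxy => heinj x (e3 x hx) y (e3 y hy) hxy) e4
  have hP : ∀ j, (P j).card = k := by
    intro j
    obtain ⟨e1, e2, e3⟩ := h2' _ (hPm j)
    simp only [P]
    rw [List.toFinset_card_of_nodup, List.length_map, e1]
    exact List.Nodup.map_on (fun x hx y hy hxy => heinj x (e3 x hx) y (e3 y hy) hxy) e2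
  -- coverage
  have hex : ∀ d : A × ZMod q, d.2 ≠ 0 →
      ∃ i, ∃ p ∈ sel Q P i, ∃ p' ∈ sel Q P i, p - p' = d := by
    intro d hd
    obtain ⟨c, hc1, hc2, rfl⟩ := hesur d hd
    rw [beq_iff_eq] at h3
    have h4 : Nat.testBit (addA (dcd g q sub) (L1 ++ L2) 0 >>> g) (c - g) = true := by
      rw [h3, Nat.testBit_two_pow_sub_one]
      exact decide_eq_true (by omega)
    rw [Nat.testBit_shiftRight, show g + (c - g) = c by omega] at h4
    rcases addA_spec _ _ _ _ h4 with h5 | ⟨B, hB, p, hp, p', hp', h5⟩
    · simp at h5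
    · rcases List.mem_append.1 hB with hB | hB
      · obtain ⟨w, hw⟩ := List.get_of_mem hB
        have e3 := (h1' _ hB).2.2
        refine ⟨Sum.inl w, e p, ?_, e p', ?_, ?_⟩
        · exact List.mem_toFinset.2 (List.mem_map.2 ⟨p, by rw [hw]; exact hp, rfl⟩)
        · exact List.mem_toFinset.2 (List.mem_map.2 ⟨p', by rw [hw]; exact hp', rfl⟩)
        · rw [← hdc p (e3 p hp) p' (e3 p' hp'), h5]
      · obtain ⟨w, hw⟩ := List.get_of_mem hB
        have e3 := (h2' _ hB).2.2
        refine ⟨Sum.inr w, e p, ?_, e p', ?_, ?_⟩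
        · exact List.mem_toFinset.2 (List.mem_map.2 ⟨p, by rw [hw]; exact hp, rfl⟩)
        · exact List.mem_toFinset.2 (List.mem_map.2 ⟨p', by rw [hw]; exact hp', rfl⟩)
        · rw [← hdc p (e3 p hp) p' (e3 p' hp'), h5]
  -- counting
  let S : Finset (Σ _ : Fin L1.length ⊕ Fin L2.length, (A × ZMod q) × (A × ZMod q)) :=
    Finset.univ.sigma fun i => (sel Q P i).offDiag
  let f : (Σ _ : Fin L1.length ⊕ Fin L2.length, (A × ZMod q) × (A × ZMod q)) → A × ZMod q :=
    fun s => s.2.1 - s.2.2
  let N0 : Finset (A × ZMod q) := Finset.univ ×ˢ (Finset.univ.erase 0)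
  have hN0 : N0.card = g * (q - 1) := by
    simp only [N0]
    rw [Finset.card_product, Finset.card_univ, hA, Finset.card_erase_of_mem (Finset.mem_univ _),
      Finset.card_univ, ZMod.card]
  have hS : S.card = g * (q - 1) := by
    simp only [S]
    rw [Finset.card_sigma, Fintype.sum_sum_type, ← hc]
    congr 1
    · rw [Finset.sum_congr rfl (g := fun _ => g * g - g), Finset.sum_const, Finset.card_univ,
        Fintype.card_fin, smul_eq_mul]
      intro w _
      have : (sel Q P (Sum.inl w)).card = g := by rw [← hA]; exact hQ w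
      rw [Finset.offDiag_card, this]
    · rw [Finset.sum_congr rfl (g := fun _ => k * k - k), Finset.sum_const, Finset.card_univ,
        Fintype.card_fin, smul_eq_mul]
      intro w _
      have : (sel Q P (Sum.inr w)).card = k := hP w
      rw [Finset.offDiag_card, this]
  have hsub2 : N0 ⊆ S.image f := by
    intro d hd
    have hd2 : d.2 ≠ 0 := (Finset.mem_erase.1 (Finset.mem_product.1 hd).2).1
    obtain ⟨i, p, hp, p', hp', h⟩ := hex d hd2
    refine Finset.mem_image.2 ⟨⟨i, (p, p')⟩, Finset.mem_sigma.2 ⟨Finset.mem_univ _,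
      Finset.mem_offDiag.2 ⟨hp, hp', ?_⟩⟩, h⟩
    intro hpp
    have hpp' : p = p' := hpp
    rw [hpp', sub_self] at h
    rw [← h] at hd2
    exact hd2 rfl
  have hle : (S.image f).card ≤ N0.card := by
    rw [hN0, ← hS]
    exact Finset.card_image_le
  have himg : N0 = S.image f := Finset.eq_of_subset_of_card_le hsub2 hle
  have hinjS : Set.InjOn f S := by
    apply Finset.injOn_of_card_image_eq
    rw [← himg, hN0, hS]
  have hnz : ∀ i, ∀ p ∈ sel Q P i, ∀ p' ∈ sel Q P i, p ≠ p' → (p - p').2 ≠ 0 := by
    intro i p hp p' hp' hne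
    have h4 : f ⟨i, (p, p')⟩ ∈ S.image f := Finset.mem_image_of_mem f
      (Finset.mem_sigma.2 ⟨Finset.mem_univ _, Finset.mem_offDiag.2 ⟨hp, hp', hne⟩⟩)
    rw [← himg] at h4
    exact (Finset.mem_erase.1 (Finset.mem_product.1 h4).2).1
  have hde := de_bordered (W := Fin L1.length) (J := Fin L2.length) k (by rw [hA]; exact hk) Q P
    hQ hP hQ1 ?_ hex ?_
  · refine gd_of_key (X := (A × ZMod q) ⊕ (Fin L1.length × A)) hk2 Finset.univ
      (fun x => match kk x with
        | none => (0 : Fin (q + 1))
        | some b => ⟨b.val + 1, by have := ZMod.val_lt b; omega⟩) _ ?_ ?_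
    · intro i
      by_cases hi : i = 0
      · subst hi
        rw [if_pos rfl]
        have e1 : (Finset.univ.filter fun x : (A × ZMod q) ⊕ (Fin L1.length × A) =>
            (match kk x with
              | none => (0 : Fin (q + 1))
              | some b => ⟨b.val + 1, by have := ZMod.val_lt b; omega⟩) = 0) =
            (Finset.univ : Finset (Fin L1.length × A)).map Function.Embedding.inr := by
          ext x
          rw [Finset.mem_filter, Finset.mem_map]
          rcases x with u | w
          · constructor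
            · rintro ⟨_, h⟩
              have h' := congrArg Fin.val h
              simp [kk] at h'
            · rintro ⟨y, _, h⟩
              exact absurd h (by simp)
          · exact ⟨fun _ => ⟨w, Finset.mem_univ _, rfl⟩, fun _ => ⟨Finset.mem_univ _, rfl⟩⟩
        rw [e1, Finset.card_map, Finset.card_univ, Fintype.card_prod, Fintype.card_fin, hA,
          Nat.mul_comm]
      · rw [if_neg hi]
        obtain ⟨j, hj⟩ : ∃ j, i.val = j + 1 := by
          have : i.val ≠ 0 := fun h => hi (Fin.ext h)
          exact ⟨i.val - 1, by omega⟩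
        have hjq : j < q := by
          have := i.2
          omega
        have e1 : (Finset.univ.filter fun x : (A × ZMod q) ⊕ (Fin L1.length × A) =>
            (match kk x with
              | none => (0 : Fin (q + 1))
              | some b => ⟨b.val + 1, by have := ZMod.val_lt b; omega⟩) = i) =
            (Finset.univ : Finset A).map ⟨fun a => Sum.inl (a, (j : ZMod q)), fun a b h => by
              rw [Sum.inl.injEq, Prod.mk.injEq] at h
              exact h.1⟩ := by
          ext x
          rw [Finset.mem_filter, Finset.mem_map]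
          rcases x with ⟨a, b⟩ | w
          · constructor
            · rintro ⟨_, h⟩
              have h' := congrArg Fin.val h
              have h'' : b.val + 1 = j + 1 := by rw [← hj]; exact h'
              have hb : b = (j : ZMod q) := by
                rw [← ZMod.natCast_zmod_val b]
                congr 1
                omega
              exact ⟨a, Finset.mem_univ _, by rw [hb]; rfl⟩
            · rintro ⟨a', _, h⟩
              have h' : (a', (j : ZMod q)) = (a, b) := by simpa using h
              rw [Prod.mk.injEq] at h'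
              refine ⟨Finset.mem_univ _, Fin.ext ?_⟩
              show b.val + 1 = i.val
              rw [← h'.2, ZMod.val_natCast, Nat.mod_eq_of_lt hjq, hj]
          · constructor
            · rintro ⟨_, h⟩
              exact absurd h.symm hi
            · rintro ⟨a', _, h⟩
              exact absurd h (by simp)
        rw [e1, Finset.card_map, Finset.card_univ, hA]
    · refine hde.congr ?_
      intro x y _
      have hkk : ∀ x y : (A × ZMod q) ⊕ (Fin L1.length × A),
          ((match kk x with
            | none => (0 : Fin (q + 1))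
            | some b => ⟨b.val + 1, by have := ZMod.val_lt b; omega⟩) =
          (match kk y with
            | none => (0 : Fin (q + 1))
            | some b => ⟨b.val + 1, by have := ZMod.val_lt b; omega⟩)) ↔ kk x = kk y := by
        intro x y
        rcases hx : kk x with _ | b <;> rcases hy : kk y with _ | b'
        · simp
        · constructor
          · intro h
            have h' := congrArg Fin.val h
            simp at h'
          · intro h
            exact absurd h (by simp)
        · constructor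
          · intro h
            have h' := congrArg Fin.val h
            simp at h'
          · intro h
            exact absurd h (by simp)
        · constructor
          · intro h
            have h' := congrArg Fin.val h
            have h'' : b.val + 1 = b'.val + 1 := h'
            have hb : b = b' := ZMod.val_injective q (by omega)
            rw [hb]
          · intro h
            rw [Option.some_inj] at h
            rw [h]
      constructor
      · intro h
        exact ⟨Finset.mem_univ _, Finset.mem_univ _, fun h' => h ((hkk x y).1 h')⟩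
      · rintro ⟨_, _, h⟩ h'
        exact h ((hkk x y).2 h')
  · intro i p hp p' hp' h
    by_contra hne
    exact hnz i p hp p' hp' hne (by rw [Prod.snd_sub, h, sub_self])
  · intro i p hp p' hp' j r hr r' hr' hne h
    have hne' : r ≠ r' := by
      rintro rfl
      rw [sub_self] at h
      exact hne (sub_eq_zero.1 h)
    have h4 := @hinjS ⟨i, (p, p')⟩
      (Finset.mem_coe.2 (Finset.mem_sigma.2 ⟨Finset.mem_univ _,
        Finset.mem_offDiag.2 ⟨hp, hp', hne⟩⟩)) ⟨j, (r, r')⟩
      (Finset.mem_coe.2 (Finset.mem_sigma.2 ⟨Finset.mem_univ _,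
        Finset.mem_offDiag.2 ⟨hr, hr', hne'⟩⟩)) h
    rw [Sigma.mk.injEq] at h4
    obtain ⟨rfl, h5⟩ := h4
    have h6 := eq_of_heq h5
    rw [Prod.mk.injEq] at h6
    exact ⟨rfl, h6.1, h6.2⟩

/-- the elementary abelian group of order `8`, coded by `0, …, 7` -/
def en8 (c : ℕ) : ZMod 2 × ZMod 2 × ZMod 2 := ((c : ZMod 2), ((c / 2 : ℕ) : ZMod 2),
  ((c / 4 : ℕ) : ZMod 2))

theorem en8_inj : ∀ a < 8, ∀ b < 8, en8 a = en8 b → a = b := by
  decide

theorem en8_sub : ∀ a < 8, ∀ b < 8, (a ^^^ b) < 8 ∧ en8 (a ^^^ b) = en8 a - en8 b := by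
  decide

/-- bordered difference families over `ℤ_2^3 × ℤ_q` -/
theorem gd8 (q v : ℕ) (hq : 0 < q) (hv : 8 * q = v) (L1 L2 : List (List ℕ))
    (h1 : (L1.all (okQ 8 v)) = true) (h2 : (L2.all (okP 9 v)) = true)
    (hc : L1.length * 56 + L2.length * 72 = 8 * (q - 1))
    (h3 : ((addA (dcd 8 q Nat.xor) (L1 ++ L2) 0) >>> 8 == 2 ^ (v - 8) - 1) = true) :
    Gd 9 (fun i : Fin (q + 1) => if i = 0 then 8 * L1.length else 8) :=
  gd_of_codes 9 8 q v hq (by norm_num) rfl hv en8 (by decide) en8_inj Nat.xor en8_sub L1 L2 h1 h2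
    hc h3

end Pool.Agent.V7H3.SN
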