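import Pool.Agent.Y345.Nine

/-!
A group divisible design with block size `9` of type `72^19 72^1`, found by computer (over
`Q_8 × Z_9 × F_19`), and the Steiner system `S(1441,9,2)`.
-/

set_option autoImplicit false
set_option maxRecDepth 100000

namespace Pool.Agent.V7H3.SN

open Pool.Agent.Y345

/-- base blocks of a group divisible design of type `72^19 72^1` -/
def b72_19_72 : List (List ℕ) :=
  [[0, 18, 153, 451, 906, 956, 961, 1147, 1368],
  [277, 463, 564, 614, 684, 702, 793, 1179, 1372],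
  [0, 139, 414, 541, 717, 1006, 1031, 1296, 1376],
  [33, 270, 347, 664, 684, 883, 1098, 1165, 1380],
  [0, 303, 305, 630, 1024, 1126, 1251, 1345, 1384],
  [100, 567, 661, 682, 684, 1314, 1329, 1331, 1388],
  [0, 45, 126, 307, 870, 992, 1075, 1141, 1392],
  [391, 457, 528, 650, 684, 810, 1071, 1333, 1396],
  [0, 162, 175, 253, 864, 1114, 1175, 1257, 1400],
  [88, 491, 522, 573, 684, 846, 1201, 1279, 1404],
  [0, 197, 306, 411, 891, 1093, 1240, 1270, 1408],
  [207, 214, 244, 409, 684, 753, 990, 1223, 1412],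
  [0, 198, 657, 667, 1033, 1244, 1255, 1302, 1416],
  [218, 276, 349, 571, 684, 882, 999, 1009, 1420],
  [0, 289, 427, 450, 815, 933, 1186, 1260, 1424],
  [131, 160, 234, 249, 684, 769, 1134, 1315, 1428],
  [0, 90, 125, 483, 697, 700, 910, 1107, 1432],
  [13, 358, 423, 568, 684, 774, 825, 1151, 1436],
  [0, 52, 324, 365, 387, 506, 515, 851, 1286],
  [167, 260, 684, 707, 729, 736, 857, 1008, 1190],
  [0, 86, 269, 436, 612, 806, 1206, 1232, 1325],
  [180, 206, 464, 641, 684, 770, 1120, 1295, 1296],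
  [0, 396, 455, 458, 604, 767, 773, 848, 1233],
  [83, 89, 506, 549, 684, 797, 1080, 1142, 1288],
  [0, 216, 299, 315, 578, 592, 617, 1250, 1283],
  [224, 599, 684, 900, 959, 1262, 1276, 1325, 1341],
  [0, 180, 374, 544, 629, 872, 918, 1181, 1310],
  [284, 497, 530, 576, 684, 864, 971, 1058, 1228],
  [0, 36, 242, 352, 563, 695, 737, 765, 920],
  [11, 53, 81, 578, 684, 720, 905, 926, 1036],
  [0, 144, 155, 268, 329, 398, 495, 887, 998],
  [203, 656, 684, 828, 837, 952, 1082, 1181, 1355],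
  [0, 338, 413, 576, 616, 734, 857, 954, 1088],
  [62, 173, 392, 612, 684, 755, 1022, 1260, 1300],
  [0, 98, 252, 635, 640, 740, 875, 909, 1169],
  [191, 225, 398, 485, 684, 782, 936, 977, 1324],
  [12, 116, 124, 128, 148, 212, 312, 360, 640],
  [696, 800, 808, 812, 832, 896, 996, 1044, 1324],
  [324, 444, 600, 746, 823, 883, 986, 1087, 1118],
  [92, 139, 199, 403, 404, 644, 1008, 1128, 1284]]

theorem g72_19_72 : Gd 9 (fun i : Fin (19 + 1) => if i = 0 then 72 else 72) :=
  gd_of_chk (m := 684) (c := 2)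
    (hs := [4, 4, 4, 4, 4, 4, 4, 4, 4, 4, 4, 4, 4, 4, 4, 4, 4, 4]) (base := b72_19_72) 72 72
    (by decide +kernel) (by norm_num) (by norm_num)

theorem s1441 : Sd 9 1441 :=
  sd_of_type (w := 1) (by norm_num) g72_19_72 (hd_of_sd le_rfl s73) s73

end Pool.Agent.V7H3.SN
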