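import Pool.Agent.TH739.SN.Orders

/-!
A transversal design with one block deleted, as a linear space for the closure theorem:
systems of order `g (m + 1) (q - 1) + 1` from systems of orders `g m + 1`, `g (m + 1) + 1` and
`g (q - 1) + 1`. For `g = 8`, `m = 9`, `q = 37` this gives the Steiner system `S(2881,9,2)`.
-/

set_option autoImplicit false

namespace Pool.Agent.V7H3.SN

open Pool.Agent.TH739.SN

section mb

variable {K : Type} [Field K] {m : ℕ}

/-- the incidence: blocks of the transversal design other than the zero block, and the groups -/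
def minc (c : Fin (m + 1) → K) :
    (Fin (m + 1) × {x : K // x ≠ 0}) → ({l : K × K // l ≠ 0} ⊕ Fin (m + 1)) → Prop
  | p, Sum.inl l => p.2.1 = l.1.1 + l.1.2 * c p.1
  | p, Sum.inr j => p.1 = j

theorem minc_unique (c : Fin (m + 1) → K) (hc : Function.Injective c)
    (x y : Fin (m + 1) × {x : K // x ≠ 0}) (hxy : x ≠ y) :
    ∃! l, minc c x l ∧ minc c y l := by
  obtain ⟨i, a, ha⟩ := x
  obtain ⟨j, b, hb⟩ := y
  by_cases hij : i = j
  · subst hij
    have hab : a ≠ b := by
      rintro rfl
      exact hxy rfl
    refine ⟨Sum.inr i, ⟨rfl, rfl⟩, ?_⟩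
    rintro (⟨⟨p, q⟩, hl⟩ | k) ⟨h1, h2⟩
    · have h1' : a = p + q * c i := h1
      have h2' : b = p + q * c i := h2
      exact absurd (h1'.trans h2'.symm) hab
    · have h1' : i = k := h1
      rw [h1']
  · have hd : c i - c j ≠ 0 := sub_ne_zero.2 (fun h => hij (hc h))
    have e1 : a = a - (a - b) / (c i - c j) * c i + (a - b) / (c i - c j) * c i := by ring
    have e2 : b = a - (a - b) / (c i - c j) * c i + (a - b) / (c i - c j) * c j := by
      field_simp
      ring
    refine ⟨Sum.inl ⟨(a - (a - b) / (c i - c j) * c i, (a - b) / (c i - c j)), ?_⟩,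
      ⟨e1, e2⟩, ?_⟩
    · intro h
      rw [Prod.mk_eq_zero] at h
      rw [h.1, h.2] at e1
      apply ha
      rw [e1]
      ring
    · rintro (⟨⟨p, q⟩, hl⟩ | k) ⟨h1, h2⟩
      · have h1' : a = p + q * c i := h1
        have h2' : b = p + q * c j := h2
        have h3 : q = (a - b) / (c i - c j) := by
          rw [eq_div_iff hd, h1', h2']
          ring
        have h4 : p = a - (a - b) / (c i - c j) * c i := by
          rw [← h3, h1']
          ring
        exact congrArg Sum.inl (Subtype.ext (Prod.ext h4 h3))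
      · have h1' : i = k := h1
        have h2' : j = k := h2
        exact absurd (h1'.trans h2'.symm) hij

theorem card_ne0 [Finite K] : Nat.card {x : K // x ≠ 0} = Nat.card K - 1 := by
  classical
  have := Fintype.ofFinite K
  rw [Nat.card_eq_fintype_card, Nat.card_eq_fintype_card, Fintype.card_subtype,
    Finset.filter_ne', Finset.card_erase_of_mem (Finset.mem_univ _), Finset.card_univ]

theorem card_mgroup [Finite K] (c : Fin (m + 1) → K) (j : Fin (m + 1)) :
    Nat.card (Pts (minc c) (Sum.inr j)) = Nat.card K - 1 := by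
  classical
  have E : Pts (minc c) (Sum.inr j) ≃ {x : K // x ≠ 0} :=
    { toFun := fun p => p.1.2
      invFun := fun x => ⟨(j, x), rfl⟩
      left_inv := by
        rintro ⟨⟨i, x⟩, h⟩
        have h' : i = j := h
        subst h'
        rfl
      right_inv := fun i => rfl }
  rw [Nat.card_congr E, card_ne0]

theorem card_mline [Finite K] (c : Fin (m + 1) → K) (hc : Function.Injective c)
    (l : {l : K × K // l ≠ 0}) :
    Nat.card (Pts (minc c) (Sum.inl l)) = m ∨ Nat.card (Pts (minc c) (Sum.inl l)) = m + 1 := by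
  classical
  have := Fintype.ofFinite K
  have E : Pts (minc c) (Sum.inl l) ≃ {i : Fin (m + 1) // ¬ (l.1.1 + l.1.2 * c i = 0)} :=
    { toFun := fun p => ⟨p.1.1, fun h => p.1.2.2 (by
        have h' : p.1.2.1 = l.1.1 + l.1.2 * c p.1.1 := p.2
        rw [h', h])⟩
      invFun := fun i => ⟨(i.1, ⟨l.1.1 + l.1.2 * c i.1, i.2⟩), rfl⟩
      left_inv := by
        rintro ⟨⟨i, x, hx⟩, h⟩
        have h' : x = l.1.1 + l.1.2 * c i := h
        subst h'
        rfl
      right_inv := fun i => rfl }
  rw [Nat.card_congr E, Nat.card_eq_fintype_card, Fintype.card_subtype_compl, Fintype.card_fin]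
  have h1 : Fintype.card {i : Fin (m + 1) // l.1.1 + l.1.2 * c i = 0} ≤ 1 := by
    rw [Fintype.card_le_one_iff_subsingleton]
    constructor
    rintro ⟨i, hi⟩ ⟨j, hj⟩
    apply Subtype.ext
    apply hc
    simp only at hi hj ⊢
    have hl : l.1.2 ≠ 0 := by
      intro h
      apply l.2
      rw [h, zero_mul, add_zero] at hi
      exact Prod.ext hi h
    have h2 : l.1.2 * (c i - c j) = 0 := by
      have : l.1.2 * (c i - c j) = (l.1.1 + l.1.2 * c i) - (l.1.1 + l.1.2 * c j) := by ring
      rw [this, hi, hj, sub_zero]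
    rcases mul_eq_zero.1 h2 with h3 | h3
    · exact absurd h3 hl
    · exact sub_eq_zero.1 h3
  omega

/-- the closure theorem for a transversal design minus a block -/
theorem minus_block {g : ℕ} (hg : 0 < g) [Finite K] {q : ℕ} (hq : Nat.card K = q)
    (hm : m + 1 ≤ q) (h1 : Ok g m) (h2 : Ok g (m + 1)) (h3 : Ok g (q - 1)) :
    Ok g ((m + 1) * (q - 1)) := by
  classical
  have := Fintype.ofFinite K
  obtain ⟨c⟩ : Nonempty (Fin (m + 1) ↪ K) := by
    apply Function.Embedding.nonempty_of_card_le
    rw [Fintype.card_fin, ← Nat.card_eq_fintype_card, hq]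
    exact hm
  have h := closure (g := g) hg (minc_unique c c.injective) (fun x => ⟨Sum.inr x.1, rfl⟩) ?_
  · have hX : Nat.card (Fin (m + 1) × {x : K // x ≠ 0}) = (m + 1) * (q - 1) := by
      rw [Nat.card_prod, Nat.card_eq_fintype_card, Fintype.card_fin, card_ne0, hq]
    rw [hX] at h
    exact h
  · rintro (l | j)
    · rcases card_mline c c.injective l with h | h
      · rw [h]; exact h1
      · rw [h]; exact h2
    · rw [card_mgroup, hq]; exact h3

end mb

theorem prime37 : Nat.Prime 37 := by norm_num

/-- `2881 = 8 * (10 * 36) + 1` -/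
theorem ok360 : Ok 8 360 := by
  have : Fact (Nat.Prime 37) := ⟨prime37⟩
  exact minus_block (K := ZMod 37) (m := 9) (q := 37) (by norm_num) (Nat.card_zmod 37)
    (by norm_num) ok9 ok10 ok36

end Pool.Agent.V7H3.SN
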