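import Pool.Agent.V7H3.SN.D1441
import Pool.Agent.V7H3.SN.D2881
import Pool.Agent.V7H3.SN.D6705

/-!
New Steiner systems `S(n,9,2)` for `n = 1441, 2881, 6705`.
-/

set_option autoImplicit false

namespace Pool.Agent.V7H3.SN.SpareNewOrdersNine

open Pool.Agent.Y345

/-- For each `n` in the list there is a family of `9`-subsets of an `n`-set such that every
`2`-subset lies in exactly one of them. -/
theorem result : ∀ n ∈ ([1441, 2881, 6705] : List ℕ),
    ∃ B : Finset (Finset (Fin n)), (∀ b ∈ B, b.card = 9) ∧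
      ∀ T : Finset (Fin n), T.card = 2 → ∃! b, b ∈ B ∧ T ⊆ b := by
  intro n hn
  simp only [List.mem_cons, List.not_mem_nil, or_false] at hn
  rcases hn with rfl | rfl | rfl
  · exact steiner_of_sd (by norm_num) Pool.Agent.V7H3.SN.s1441
  · exact Pool.Agent.TH739.SN.toFinset_form rfl Pool.Agent.V7H3.SN.ok360
  · exact steiner_of_sd (by norm_num) Pool.Agent.V7H3.SN.s6705

end Pool.Agent.V7H3.SN.SpareNewOrdersNine
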